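import Mathlib

/-! Loops, and truth tables packed into natural numbers. -/

namespace Pool.Agent.H.MP_9ff1c8_al

/-- A loop: multiplication, identity, left division `ld a b = a \ b` and right division
`rd b a = b / a`. -/
structure Loop (Q : Type) where
  mul : Q → Q → Q
  one : Q
  ld : Q → Q → Q
  rd : Q → Q → Q
  one_mul : ∀ x, mul one x = x
  mul_one : ∀ x, mul x one = x
  mul_ld : ∀ a b, mul a (ld a b) = b
  ld_mul : ∀ a x, ld a (mul a x) = x
  rd_mul : ∀ a b, mul (rd b a) a = b
  mul_rd : ∀ a y, rd (mul y a) a = y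

/-- The principal isotope `x ∘ y = (x / a) (b \ y)`. -/
def Loop.iso {Q : Type} (L : Loop Q) (a b x y : Q) : Q := L.mul (L.rd x a) (L.ld b y)

/-- The principal isotope given by `(a, b)` is flexible. -/
def Loop.FlexAt {Q : Type} (L : Loop Q) (a b : Q) : Prop :=
  ∀ x y, L.iso a b x (L.iso a b y x) = L.iso a b (L.iso a b x y) x

/-- Universally flexible: every principal isotope is flexible. -/
def Loop.UF {Q : Type} (L : Loop Q) : Prop := ∀ a b, L.FlexAt a b

def pat (k : ℕ) : ℕ → ℕ
  | 0 => 0
  | N + 1 => if N = k then (1 <<< 2 ^ k - 1) <<< 2 ^ k else pat k N ||| pat k N <<< 2 ^ N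

lemma pat_spec (k N i : ℕ) : (pat k N).testBit i = (decide (i < 2 ^ N) && i.testBit k) := by
  induction N generalizing i with
  | zero =>
    rcases i with _ | i <;> simp [pat]
  | succ N ih =>
    have h2 : 2 ^ (N + 1) = 2 ^ N + 2 ^ N := by ring
    unfold pat
    split_ifs with h
    · subst h
      rw [Nat.testBit_shiftLeft, Nat.one_shiftLeft, Nat.testBit_two_pow_sub_one]
      rcases lt_or_ge i (2 ^ N) with h | h
      · simp [Nat.testBit_lt_two_pow h, h]
      · obtain ⟨j, rfl⟩ := Nat.exists_eq_add_of_le h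
        rcases lt_or_ge j (2 ^ N) with h' | h'
        · simp [Nat.testBit_two_pow_add_eq, Nat.testBit_lt_two_pow h', h2, h']
        · simp [h2, h'.not_gt]
    · rw [Nat.testBit_or, Nat.testBit_shiftLeft, ih, ih]
      rcases lt_or_ge i (2 ^ N) with h1 | h1
      · simp [h1, h1.not_ge, show i < 2 ^ (N + 1) by omega]
      · obtain ⟨j, rfl⟩ := Nat.exists_eq_add_of_le h1
        rcases lt_or_ge j (2 ^ N) with h' | h'
        · rcases lt_or_gt_of_ne h with h3 | h3
          · have : 2 ^ (N + 1) ≤ 2 ^ k := Nat.pow_le_pow_right (by norm_num) h3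
            simp [Nat.testBit_lt_two_pow (show j < 2 ^ k by omega),
              Nat.testBit_lt_two_pow (show 2 ^ N + j < 2 ^ k by omega)]
          · simp [Nat.testBit_two_pow_add_gt h3, h', h2]
        · simp [h2, h'.not_gt]

lemma exists_index (N : ℕ) (f : Fin N → Bool) :
    ∃ i : ℕ, ∀ k : Fin N, (pat k N).testBit i = f k :=
  ⟨Nat.ofBits f, fun k => by
    rw [pat_spec, Nat.testBit_ofBits_lt f k k.2]; simp [Nat.ofBits_lt_two_pow]⟩

end Pool.Agent.H.MP_9ff1c8_al
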